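import Pool.Agent.U501.CS.Dom

/-!
# The `C^0`-core of a domain can be smaller than its `C^1`-core

There is a domain `Ω ⊂ ℂ³` with `c^0(Ω) ≠ c^s(Ω)` for all `s ≥ 1` (also for `s = ∞`).

`Ω` contains the disc `D = {(τ, 0, 0) : |τ| ≤ 1}` and the curves `C_l = {(l - t, t², t³) : t ∈ ℂ}`
for the points `l` of the connected set `E = {|l| = 1} ∪ [1/2, 1]`.

* A `C¹`-smooth plurisubharmonic function `u` on `Ω` that is bounded from above is constant on the
  curve `C_l` (Liouville); the curve has a cusp at `(l, 0, 0)` with tangent direction `(1, 0, 0)`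
  in the parameter `t`, so the differential of `u` at `(l, 0, 0)` vanishes on `(w, 0, 0)`. So `u`
  is constant on `E × {(0, 0)}`, and by the maximum principle it is constant on the disc `D`.
* There is a continuous plurisubharmonic function `A` on `ℂ³` which equals `|τ|` on `D` and `|l|`
  on `C_l`: the function `|z₁ + z₃ / z₂| + 300 |z₂³ (z₃² - z₂³)|^(1/12)` near the surface
  `z₃² = z₂³`, glued by a maximum with `|z₁| + 200 |z₃|^(1/3)`. With `Ω` a component of the set
  `{A < 2}` without a closed set near the disc `{|z₁| ≤ 1/4, z₂ = z₃ = 0}`, the function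
  `max (A, |z|² + 1/100)` near `0` and `A` elsewhere is a bounded continuous plurisubharmonic
  function on `Ω` which is strictly plurisubharmonic at `0`.
-/

set_option autoImplicit false

namespace Pool.Agent.Results.MP_63d28d_an.CoresDiffer

open Filter Topology

/-- A continuous function `u` on the open set `Ω ⊆ ℂⁿ` is plurisubharmonic if it satisfies the
(local) submean inequality on complex lines: for all `a ∈ Ω` and all `b ∈ ℂⁿ`, the value `u a` is
at most the mean of `τ ↦ u (a + τ b)` over the circle `|τ| = r`, for all sufficiently small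
`r > 0`. (The functions in `core` are continuous, so this is all that is needed.) -/
def Psh {n : ℕ} (Ω : Set (Fin n → ℂ)) (u : (Fin n → ℂ) → ℝ) : Prop :=
  ContinuousOn u Ω ∧ ∀ a ∈ Ω, ∀ b : Fin n → ℂ, ∀ᶠ r in 𝓝[>] (0:ℝ),
    u a ≤ Real.circleAverage (fun τ : ℂ => u (a + τ • b)) 0 r

/-- `φ` is strictly plurisubharmonic at `z`: the function `φ - ε |w|²` is plurisubharmonic in an
open neighbourhood `U ⊆ Ω` of `z`, for some `ε > 0`. -/
def StrictlyPshAt {n : ℕ} (Ω : Set (Fin n → ℂ)) (φ : (Fin n → ℂ) → ℝ) (z : Fin n → ℂ) : Prop :=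
  ∃ U : Set (Fin n → ℂ), IsOpen U ∧ z ∈ U ∧ U ⊆ Ω ∧
    ∃ ε : ℝ, 0 < ε ∧ Psh U (fun w => φ w - ε * ∑ i, ‖w i‖ ^ 2)

/-- The `C^s`-core of `Ω`: the points of `Ω` at which no `C^s`-smooth plurisubharmonic function on
`Ω` that is bounded from above is strictly plurisubharmonic. -/
def core {n : ℕ} (s : ℕ∞) (Ω : Set (Fin n → ℂ)) : Set (Fin n → ℂ) :=
  {z | z ∈ Ω ∧ ¬ ∃ φ : (Fin n → ℂ) → ℝ, ContDiffOn ℝ s φ Ω ∧ Psh Ω φ ∧
    (∃ M : ℝ, ∀ w ∈ Ω, φ w ≤ M) ∧ StrictlyPshAt Ω φ z}

/-- There is a domain in `ℂ³` whose `C^0`-core is a proper subset of its `C^s`-core for every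
`s ≥ 1`, `s = ∞` included. -/
theorem result : ∃ Ω : Set (Fin 3 → ℂ), IsOpen Ω ∧ IsConnected Ω ∧
    ∀ s : ℕ∞, 1 ≤ s → core 0 Ω ⊂ core s Ω :=
  Pool.Agent.U501.CS.main

end Pool.Agent.Results.MP_63d28d_an.CoresDiffer
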